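import Pool.Agent.H32.GWc

namespace Pool.Agent.Results.MP_f48e0c_pr.FinExt

open MeasureTheory Filter Topology Pool.Agent.H32.GW
open scoped ENNReal

/-- `q_x(A)`: probability that the number of individuals with type in `A` tends to `0`. -/
noncomputable def qA {X Ω : Type} [MeasurableSpace Ω] (P : Measure Ω)
    (ξ : ℕ × X × ℕ → Ω → X →₀ ℕ) (A : Set X) (x : X) : ℝ≥0∞ :=
  P {ω | Tendsto (fun n => (Z ξ x n ω).sum fun y k => A.indicator (fun _ => k) y) atTop (𝓝 0)}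

theorem qA_eq {X Ω : Type} [MeasurableSpace Ω] (P : Measure Ω)
    (ξ : ℕ × X × ℕ → Ω → X →₀ ℕ) (A : Set X) : qA P ξ A = fun x => P (ev ξ A x) := by
  funext x
  rw [qA]
  congr 1
  ext ω
  simp only [ev, Set.mem_ofPred_eq, nhds_discrete, tendsto_pure, Finsupp.sum, Finset.sum_eq_zero_iff,
    Finsupp.mem_support_iff, Set.indicator_apply_eq_zero]
  refine eventually_congr (Eventually.of_forall fun n => forall_congr' fun y => ?_)
  tauto

theorem result (X : Type) [Countable X] (μ : X → PMF (X →₀ ℕ)) :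
    (∃ (Ω : Type) (_ : MeasurableSpace Ω) (P : Measure Ω) (ξ : ℕ × X × ℕ → Ω → X →₀ ℕ),
      IsGW P μ ξ) ∧
    ∀ (Ω : Type) [MeasurableSpace Ω] (P : Measure Ω) (ξ : ℕ × X × ℕ → Ω → X →₀ ℕ),
      IsGW P μ ξ → {s : X → ℝ≥0∞ | s ≤ 1 ∧ G μ s = s}.Finite →
      {s : X → ℝ≥0∞ | s ≤ 1 ∧ G μ s = s} = Set.range (qA P ξ) := by
  refine ⟨exists_model μ, fun Ω _ P ξ h hS => ?_⟩
  haveI := h.indep.isProbabilityMeasure
  ext s
  constructor
  · rintro ⟨h1, h2⟩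
    obtain ⟨A, hA⟩ := h.fin_ext hS h1 h2
    exact ⟨A, (qA_eq P ξ A).trans hA⟩
  · rintro ⟨A, rfl⟩
    rw [qA_eq]
    exact ⟨fun _ => prob_le_one, h.fix (h.good_ev A)⟩

end Pool.Agent.Results.MP_f48e0c_pr.FinExt
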